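import Pool.Agent.H32.N6W.Targets

/-!
# Board n6w_modules, row HPM: the symbols are multiplicative in the modulus
-/

set_option autoImplicit false

open Polynomial NumberField IsDedekindDomain Matrix Pool.Agent.H32.QC Pool.Agent.H34.N6
open Pool.Agent.H13.DEV Pool.Agent.H34.N6V Pool.Agent.H63.WT Pool.Agent.H32.N6W

namespace Pool.Agent.H79.N6W

open UniqueFactorizationMonoid in
theorem pf_HPM : T_HPM := by
  classical
  intro F ι _ s A a b
  induction s using Finset.induction_on with
  | empty =>
    intro _
    unfold hpr
    simp
  | insert i s hi ih =>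
    intro hA
    have h1 : A i ≠ 0 := hA i (Finset.mem_insert_self i s)
    have h2 : ∏ j ∈ s, A j ≠ 0 :=
      Finset.prod_ne_zero_iff.2 fun j hj => hA j (Finset.mem_insert_of_mem hj)
    rw [Finset.prod_insert hi, Finset.prod_insert hi,
      ← ih fun j hj => hA j (Finset.mem_insert_of_mem hj)]
    unfold hpr
    rw [normalizedFactors_mul h1 h2, Multiset.map_add, Multiset.prod_add]

end Pool.Agent.H79.N6W
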